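import Pool.Agent.Lib.MP_7161a7_co.Main

open Pool.Agent.Lib.MP_7161a7_co

/-- There is a maximal topological thrackle whose graph is a perfect matching with nine edges
(under either reading of a proper crossing). -/
theorem Pool.Agent.Results.MP_7161a7_co.MaximalMatching.result :
    ∃ (V : Type) (_ : Finite V) (G : SimpleGraph V) (D : Drawing G),
      (∀ v, ∃! w, G.Adj v w) ∧ G.edgeSet.ncard = 9 ∧
      D.IsMaximalThrackle ChartCrossing ∧ D.IsMaximalThrackle SideCrossing :=
  ⟨Fin 9 × Fin 2, inferInstance, matching, drawing, main⟩
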